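import Pool.Agent.Helper38.SD.Goals

/-! # Packet SD-A_MOV (MP_fc6b1e_nt) -/

set_option autoImplicit false

namespace Pool.Agent.Helper62.SD

open Pool.Agent.Helper16.SD
open Pool.Agent.Helper38.FD (Chr)
open Pool.Agent.Helper38.TH (IsTower Hat)

theorem enough (p : ℕ) [Fact p.Prime] (K : Type) [Field K] [NumberField K] (i : ℕ) :
    HasEnoughRootsOfUnity (AlgebraicClosure K) (p ^ i) := by
  have : NeZero ((p ^ i : ℕ) : AlgebraicClosure K) :=
    ⟨Nat.cast_ne_zero.2 (pow_ne_zero _ (Fact.out : p.Prime).ne_zero)⟩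
  infer_instance

/-- roots of unity: `g'` and `g` agree. -/
theorem root_eq {p : ℕ} [Fact p.Prime] {K : Type} [Field K] (ιinf : AlgebraicClosure K →+* ℂ)
    (g g' : AlgebraicClosure K ≃ₐ[K] AlgebraicClosure K)
    (h : ∀ x y : AlgebraicClosure K, ιinf y = starRingEnd ℂ (ιinf x) →
      ιinf (g' y) = starRingEnd ℂ (ιinf (g x))) (n : ℕ) (ζ : AlgebraicClosure K)
    (hζ : ζ ^ p ^ n = 1) : g' ζ = g ζ := by
  have hp : (p ^ n : ℕ) ≠ 0 := pow_ne_zero _ (Fact.out : p.Prime).ne_zero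
  have key : ∀ z : ℂ, z ^ p ^ n = 1 → starRingEnd ℂ z⁻¹ = z := by
    intro z hz
    have h1 : ‖z‖ = 1 := Complex.norm_eq_one_of_pow_eq_one hz hp
    rw [Complex.inv_eq_conj h1]
    exact Complex.conj_conj z
  have h1 : ιinf ζ = starRingEnd ℂ (ιinf ζ⁻¹) := by
    rw [map_inv₀, key]
    rw [← map_pow, hζ, map_one]
  have h2 := h ζ⁻¹ ζ h1
  apply ιinf.injective
  rw [h2, map_inv₀, map_inv₀, key]
  rw [← map_pow, ← map_pow, hζ, map_one, map_one]

theorem cyc_eq {p : ℕ} [Fact p.Prime] {K : Type} [Field K] [NumberField K]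
    (ιinf : AlgebraicClosure K →+* ℂ)
    (g g' : AlgebraicClosure K ≃ₐ[K] AlgebraicClosure K)
    (h : ∀ x y : AlgebraicClosure K, ιinf y = starRingEnd ℂ (ιinf x) →
      ιinf (g' y) = starRingEnd ℂ (ιinf (g x))) : cyc p g' = cyc p g := by
  have hen : ∀ i, HasEnoughRootsOfUnity (AlgebraicClosure K) (p ^ i) := enough p K
  apply Units.ext
  apply PadicInt.ext_of_toZModPow.1
  intro n
  obtain ⟨ζ, hζ⟩ := HasEnoughRootsOfUnity.exists_primitiveRoot (AlgebraicClosure K) (p ^ n)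
  have h1 : g' ζ = g ζ := root_eq ιinf g g' h n ζ hζ.pow_eq_one
  have h2 : g' ζ = ζ ^ ((cyc p g').val.toZModPow n).val :=
    cyclotomicCharacter.spec p (g' : AlgebraicClosure K ≃+* AlgebraicClosure K) ζ hζ.pow_eq_one
  have h3 : g ζ = ζ ^ ((cyc p g).val.toZModPow n).val :=
    cyclotomicCharacter.spec p (g : AlgebraicClosure K ≃+* AlgebraicClosure K) ζ hζ.pow_eq_one
  rw [h2, h3] at h1
  have : NeZero (p ^ n) := ⟨pow_ne_zero _ (Fact.out : p.Prime).ne_zero⟩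
  exact ZMod.val_injective _ (hζ.pow_inj (ZMod.val_lt _) (ZMod.val_lt _) h1)

/-- a unit congruent to `1` modulo `p`, of order dividing `p - 1`, is `1`. -/
theorem eq_one_of_pow {p : ℕ} [Fact p.Prime] (y : ℤ_[p]) (h1 : (p : ℤ_[p]) ∣ y - 1)
    (h2 : y ^ (p - 1) = 1) : y = 1 := by
  have h3 := geom_sum_mul y (p - 1)
  rw [h2, sub_self] at h3
  rcases mul_eq_zero.1 h3 with h | h
  · exfalso
    have h4 : (p : ℤ_[p]) ∣ ∑ i ∈ Finset.range (p - 1), (y ^ i - 1) :=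
      Finset.dvd_sum fun i _ => h1.trans (sub_one_dvd_pow_sub_one y i)
    rw [Finset.sum_sub_distrib, h] at h4
    simp only [Finset.sum_const, Finset.card_range, nsmul_eq_mul, mul_one, zero_sub] at h4
    rw [dvd_neg, Nat.cast_sub (Fact.out : p.Prime).one_lt.le, Nat.cast_one] at h4
    have h5 : (p : ℤ_[p]) ∣ 1 := by
      have := dvd_sub (dvd_refl (p : ℤ_[p])) h4
      rwa [sub_sub_cancel] at this
    exact PadicInt.prime_p.not_isUnit (isUnit_of_dvd_one h5)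
  · exact sub_eq_zero.1 h

theorem om_u_eq {p : ℕ} [Fact p.Prime] {K : Type} [Field K] [NumberField K]
    {η : ℕ → Chr K (AlgebraicClosure K) ℂ_[p]}
    {om u : (AlgebraicClosure K ≃ₐ[K] AlgebraicClosure K) →* ℤ_[p]ˣ} (hC : Cyc η om u)
    (g g' : AlgebraicClosure K ≃ₐ[K] AlgebraicClosure K) (h : cyc p g' = cyc p g) :
    om g' = om g ∧ u g' = u g := by
  have h1 : om (g' * g⁻¹) * u (g' * g⁻¹) = 1 := by
    have h2 : om g' * u g' = om g * u g := by rw [← hC.mul, ← hC.mul, h]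
    rw [map_mul, map_mul, map_inv, map_inv, mul_mul_mul_comm, h2, ← mul_inv, mul_inv_cancel]
  have h3 : u (g' * g⁻¹) ^ (p - 1) = 1 := by
    have h4 : (om (g' * g⁻¹) * u (g' * g⁻¹)) ^ (p - 1) = 1 := by rw [h1, one_pow]
    rwa [mul_pow, hC.om_pow, one_mul] at h4
  have h5 : u (g' * g⁻¹) = 1 := by
    apply Units.ext
    rw [Units.val_one]
    refine eq_one_of_pow _ (hC.u_one _) ?_
    rw [← Units.val_pow_eq_pow_val, h3, Units.val_one]
  have h6 : om (g' * g⁻¹) = 1 := by rwa [h5, mul_one] at h1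
  rw [map_mul, map_inv, mul_inv_eq_one] at h5 h6
  exact ⟨h6, h5⟩

theorem eta_eq {p : ℕ} [Fact p.Prime] {K : Type} [Field K] [NumberField K]
    {η : ℕ → Chr K (AlgebraicClosure K) ℂ_[p]}
    {om u : (AlgebraicClosure K ≃ₐ[K] AlgebraicClosure K) →* ℤ_[p]ˣ} (hC : Cyc η om u)
    (g g' : AlgebraicClosure K ≃ₐ[K] AlgebraicClosure K) (h : u g' = u g) (n : ℕ) :
    η n g' = η n g := by
  have h1 : η n (g' * g⁻¹) = 1 := by
    rw [hC.cut, map_mul, map_inv, h, mul_inv_cancel, Units.val_one, sub_self]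
    exact dvd_zero _
  rwa [map_mul, map_inv, mul_inv_eq_one] at h1

theorem a_mov : Pool.Agent.Helper38.SD.A_MOV := by
  intro p _ K _ _ ιinf η om u hC χ hχ
  obtain ⟨g, g', hg, hg', hne⟩ := hχ
  have hcyc : cyc p g' = cyc p g := cyc_eq ιinf g g' hg'
  obtain ⟨hom, hu⟩ := om_u_eq hC g g' hcyc
  refine ⟨fun θ hθ => ⟨g, g', hg, hg', fun h => ?_⟩, fun ν hν => ⟨g, g', hg, hg', fun h => ?_⟩⟩
  · obtain ⟨n, a, rfl⟩ := hθ
    rw [MonoidHom.mul_apply, MonoidHom.mul_apply, MonoidHom.pow_apply, MonoidHom.pow_apply,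
      eta_eq hC g g' hu n] at h
    exact hne (mul_right_cancel h)
  · have h1 := hν g'
    rw [hom, ← hν g, h] at h1
    exact hne (Units.ext (mul_right_cancel₀ (Units.ne_zero _) h1))

end Pool.Agent.Helper62.SD
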