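import Pool.Agent.Helper16.SD.GoalsS
import Pool.Agent.Helper91.SL.LB
import Pool.Agent.Helper33.SL.SUB

/-! # Packet SD-T_LBT (MP_fc6b1e_nt) -/

set_option autoImplicit false

namespace Pool.Agent.Helper62.SD.T_LBT

open Module
open Pool.Agent.Helper17.SL (S_SUB)
open Pool.Agent.Helper17.SL.PkLB (ann mem_ann ann_sup ann_anti)

theorem ann_restrict {E k : Type} [Field E] [CharZero E] [Field k] [CharZero k] {d l : ℕ}
    (B : (Fin d → E) →ₗ[ℚ] (Fin l → E) →ₗ[ℚ] k)
    (hB : ∀ (e : E) a c, B (e • a) c = B a (e • c)) (C : Submodule E (Fin l → E)) :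
    ann B (C.restrictScalars ℚ) =
      (Pool.Agent.Helper16.SD.annB B C).restrictScalars ℚ := by
  ext a
  rw [mem_ann, Submodule.restrictScalars_mem]
  constructor
  · intro h c hc e
    rw [hB]
    exact h _ (C.smul_mem e hc)
  · intro h c hc
    have := h c hc 1
    rwa [one_smul] at this

theorem finrank_restrict {E V : Type} [Field E] [NumberField E] [AddCommGroup V] [Module E V]
    [Module ℚ V] [IsScalarTower ℚ E V] (C : Submodule E V) :
    finrank ℚ (C.restrictScalars ℚ) = finrank ℚ E * finrank E C :=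
  (Module.finrank_mul_finrank ℚ E C).symm

theorem thm (hSUB : S_SUB.{0, 0}) : Pool.Agent.Helper16.SD.T_LBT := by
  intro E _ _ k _ _ d l s t B hB hC A A' hAA'
  have hD : finrank ℚ (Fin d → E) = d * finrank ℚ E := by
    rw [Module.finrank_pi_fintype, Finset.sum_const, Finset.card_univ, Fintype.card_fin,
      smul_eq_mul]
  have hle : ∀ W' : Submodule ℚ (Fin l → E), finrank ℚ (ann B W') ≤ d * finrank ℚ E :=
    fun W' ↦ hD ▸ Submodule.finrank_le _
  have key := hSUB E (Fin l → E) (fun W' ↦ d * finrank ℚ E - finrank ℚ (ann B W')) s t ?_ ?_ ?_ A'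
  · have h1 : A ≤ ann B A' := fun a ha c hc ↦ hAA' c hc a ha
    have h2 : finrank ℚ A ≤ finrank ℚ (ann B A') := Submodule.finrank_mono h1
    have h3 := hle A'
    have h4 : t * finrank ℚ A ≤ t * finrank ℚ (ann B A') := Nat.mul_le_mul_left _ h2
    have h5 : t * (d * finrank ℚ E - finrank ℚ (ann B A')) + t * finrank ℚ (ann B A') =
        t * (d * finrank ℚ E) := by
      rw [← mul_add, Nat.sub_add_cancel h3]
    omega
  · intro P Q
    have h1 := Submodule.finrank_sup_add_finrank_inf_eq (ann B P) (ann B Q)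
    have h2 : finrank ℚ ↥(ann B P ⊔ ann B Q) ≤ finrank ℚ (ann B (P ⊓ Q)) :=
      Submodule.finrank_mono (sup_le (ann_anti B inf_le_left) (ann_anti B inf_le_right))
    have h3 := hle P
    have h4 := hle Q
    have h5 := hle (P ⊓ Q)
    have h6 := hle (P ⊔ Q)
    rw [ann_sup] at h6 ⊢
    omega
  · intro c P hc
    have h1 : ann B (P.map ((LinearMap.lsmul E (Fin l → E) c).restrictScalars ℚ)) =
        (ann B P).map (((LinearEquiv.smulOfNeZero E (Fin d → E) c hc).restrictScalars ℚ).symm :
          (Fin d → E) →ₗ[ℚ] (Fin d → E)) := by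
      ext a
      rw [mem_ann]
      constructor
      · intro h
        refine ⟨c • a, ?_, ?_⟩
        · rw [SetLike.mem_coe, mem_ann]
          intro x hx
          rw [hB]
          exact h _ ⟨x, hx, rfl⟩
        · exact ((LinearEquiv.smulOfNeZero E (Fin d → E) c hc).restrictScalars ℚ).symm_apply_apply a
      · rintro ⟨x, hx, rfl⟩ y ⟨z, hz, rfl⟩
        have h2 : c • ((((LinearEquiv.smulOfNeZero E (Fin d → E) c hc).restrictScalars ℚ).symm :
          (Fin d → E) →ₗ[ℚ] (Fin d → E)) x) = x :=
          ((LinearEquiv.smulOfNeZero E (Fin d → E) c hc).restrictScalars ℚ).apply_symm_apply x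
        change B _ (c • z) = 0
        rw [← hB, h2]
        exact hx z hz
    rw [h1, LinearEquiv.finrank_map_eq]
  · intro C
    change s * _ ≤ t * (d * finrank ℚ E - finrank ℚ (ann B (C.restrictScalars ℚ)))
    rw [ann_restrict B hB, finrank_restrict, finrank_restrict]
    calc s * (finrank ℚ E * finrank E C) = finrank ℚ E * (s * finrank E C) := by ring
      _ ≤ finrank ℚ E * (t * (d - finrank E (Pool.Agent.Helper16.SD.annB B C))) :=
          Nat.mul_le_mul_left _ (hC C)
      _ = t * (d * finrank ℚ E - finrank ℚ E * finrank E (Pool.Agent.Helper16.SD.annB B C)) := by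
          rw [mul_comm d, ← Nat.mul_sub]
          ring

theorem t : Pool.Agent.Helper16.SD.T_LBT := thm Pool.Agent.Helper17.SL.PkSUB.thm

end Pool.Agent.Helper62.SD.T_LBT
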