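import Pool.Agent.Helper71.SD.Goals

/-!
Packet EFLAT of the disproof of `MP_dcced1_gt`.
-/

namespace Pool.Agent.Helper71.SD.EFLAT

open Pool.Agent.Helper71.AHtpy SimpleGraph

theorem tog_erase {a : E} {S : Finset E} (h : a ∈ S) : tog a S = S.erase a := by
  ext i
  simp only [mem_tog, Finset.mem_erase]
  constructor
  · rintro (⟨h1, h2⟩ | ⟨h1, h2⟩)
    · exact ⟨h2, h1⟩
    · exact absurd (h1 ▸ h) h2
  · rintro ⟨h1, h2⟩
    exact Or.inl ⟨h2, h1⟩

theorem tog_insert {a : E} {S : Finset E} (h : a ∉ S) : tog a S = insert a S := by
  ext i
  simp only [mem_tog, Finset.mem_insert]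
  constructor
  · rintro (⟨h1, h2⟩ | ⟨h1, h2⟩)
    · exact Or.inr h1
    · exact Or.inl h1
  · rintro (h1 | h1)
    · exact Or.inr ⟨h1, h1 ▸ h⟩
    · exact Or.inl ⟨h1, fun h2 => h (h2 ▸ h1)⟩

theorem card_tog (a : E) (S : Finset E) : (a ∈ S → (tog a S).card + 1 = S.card) ∧
    (a ∉ S → (tog a S).card = S.card + 1) := by
  constructor
  · intro h
    rw [tog_erase h]
    exact Finset.card_erase_add_one h
  · intro h
    rw [tog_insert h]
    exact Finset.card_insert_of_notMem h

theorem sd_tog {c : E} {S w : Finset E} : symmDiff (tog c S) w = tog c (symmDiff S w) := by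
  unfold tog
  rw [symmDiff_right_comm]

/-- Packet EFLAT. -/
theorem eflat : S_EFLAT := by
  intro δ hR w a hw hδw hc
  have key : ∀ N : ℕ, ∀ S, (symmDiff S w).card = N → Bd 6 S → (a ∈ S ↔ a ∈ w) →
      δ S = some a := by
    intro N
    induction N using Nat.strong_induction_on with
    | _ N ih =>
      intro S hN hS haS
      have hna : a ∉ symmDiff S w := by
        rw [Finset.mem_symmDiff]
        tauto
      -- the step
      have step : ∀ c c', c ≠ c' → c ∈ symmDiff S w → c' ∈ symmDiff S w → Bd 6 (tog c S) →
          Bd 6 (tog c' S) → δ S = some a := by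
        intro c c' hcc hc1 hc2 hb1 hb2
        have one : ∀ b, b ∈ symmDiff S w → Bd 6 (tog b S) → δ S = some a ∨ δ S = some b := by
          intro b hb hbb
          have hba : b ≠ a := fun h => hna (h ▸ hb)
          have h1 : (symmDiff (tog b S) w).card + 1 = N := by
            rw [sd_tog, (card_tog b _).1 hb, hN]
          have h2 : (a ∈ tog b S ↔ a ∈ w) := by
            rw [mem_tog]
            have : a ≠ b := hba.symm
            tauto
          have h3 := ih _ (by omega) (tog b S) rfl hbb h2
          rcases hR S b hS hbb with h | h | h
          · exact Or.inl (h.trans h3)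
          · exact Or.inr h
          · rw [h3] at h
            exact absurd (Option.some.inj h).symm hba
        rcases one c hc1 hb1 with h | h
        · exact h
        · rcases one c' hc2 hb2 with h' | h'
          · exact h'
          · rw [h] at h'
            exact absurd (Option.some.inj h') hcc
      rcases Nat.lt_or_ge N 2 with hN2 | hN2
      · rcases Nat.lt_or_ge N 1 with hN1 | hN1
        · have h0 : symmDiff S w = ∅ := Finset.card_eq_zero.1 (by omega)
          have : S = w := symmDiff_eq_bot.1 h0
          rw [this]
          exact hδw
        · obtain ⟨c, hc1⟩ := Finset.card_eq_one.1 (show (symmDiff S w).card = 1 by omega)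
          have hca : c ≠ a := by
            intro h
            apply hna
            rw [hc1, h]
            exact Finset.mem_singleton_self a
          have : S = tog c w := by
            unfold tog
            rw [← hc1, symmDiff_comm S w, symmDiff_symmDiff_cancel_left]
          rw [this]
          exact hc c hca
      · obtain ⟨hS1, hS2⟩ := hS
        obtain ⟨hw1, hw2⟩ := hw
        have bd : ∀ c, (c ∈ S → 25 ≤ S.card) → (c ∉ S → S.card ≤ 35) → Bd 6 (tog c S) := by
          intro c h1 h2
          by_cases hcS : c ∈ S
          · have := (card_tog c S).1 hcS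
            have := h1 hcS
            exact ⟨by omega, by omega⟩
          · have := (card_tog c S).2 hcS
            have := h2 hcS
            exact ⟨by omega, by omega⟩
        rcases Nat.lt_or_ge 35 S.card with h36 | h36
        · have h1 : 1 < (S \ w).card := by
            have := Finset.le_card_sdiff w S
            omega
          obtain ⟨c, hc1, c', hc2, hcc⟩ := Finset.one_lt_card.1 h1
          rw [Finset.mem_sdiff] at hc1 hc2
          exact step c c' hcc (Finset.mem_symmDiff.2 (Or.inl hc1))
            (Finset.mem_symmDiff.2 (Or.inl hc2)) (bd c (fun _ => by omega) fun h => absurd hc1.1 h)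
            (bd c' (fun _ => by omega) fun h => absurd hc2.1 h)
        · rcases Nat.lt_or_ge S.card 25 with h24 | h24
          · have h1 : 1 < (w \ S).card := by
              have := Finset.le_card_sdiff S w
              omega
            obtain ⟨c, hc1, c', hc2, hcc⟩ := Finset.one_lt_card.1 h1
            rw [Finset.mem_sdiff] at hc1 hc2
            exact step c c' hcc (Finset.mem_symmDiff.2 (Or.inr hc1))
              (Finset.mem_symmDiff.2 (Or.inr hc2))
              (bd c (fun h => absurd h hc1.2) fun _ => by omega)
              (bd c' (fun h => absurd h hc2.2) fun _ => by omega)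
          · obtain ⟨c, hc1, c', hc2, hcc⟩ := Finset.one_lt_card.1
              (show 1 < (symmDiff S w).card by omega)
            exact step c c' hcc hc1 hc2 (bd c (fun _ => h24) fun _ => by omega)
              (bd c' (fun _ => h24) fun _ => by omega)
  intro S hS ha
  exact key _ S rfl hS ha

end Pool.Agent.Helper71.SD.EFLAT
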