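import Pool.Agent.Helper71.SD.Goals

/-!
Packet XC2 of the disproof of `MP_dcced1_gt`.
-/

namespace Pool.Agent.Helper71.SD.XC2

open Pool.Agent.Helper71.AHtpy SimpleGraph

theorem ex3 (P : Fin 3 → Prop) : (∃ a, P a) ↔ P 0 ∨ P 1 ∨ P 2 := by
  constructor
  · rintro ⟨a, h⟩
    fin_cases a
    · exact Or.inl h
    · exact Or.inr (Or.inl h)
    · exact Or.inr (Or.inr h)
  · rintro (h | h | h)
    exacts [⟨0, h⟩, ⟨1, h⟩, ⟨2, h⟩]

theorem all3 (P : Fin 3 → Prop) : (∀ a, P a) ↔ P 0 ∧ P 1 ∧ P 2 := by
  constructor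
  · intro h
    exact ⟨h 0, h 1, h 2⟩
  · rintro ⟨h0, h1, h2⟩ a
    fin_cases a
    exacts [h0, h1, h2]

theorem filter_tog {i : E} {a : Fin 3} (h : blk i ≠ a) (S : Finset E) :
    (tog i S).filter (fun j => blk j = a) = S.filter fun j => blk j = a := by
  ext j
  simp only [Finset.mem_filter, mem_tog]
  constructor
  · rintro ⟨h1 | h1, h2⟩
    · exact ⟨h1.1, h2⟩
    · exact absurd (h1.1 ▸ h2) h
  · rintro ⟨h1, h2⟩
    refine ⟨Or.inl ⟨h1, ?_⟩, h2⟩
    rintro rfl
    exact h h2

/-- counts along an edge -/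
theorem edge (h1 : S_XC1) {i : E} {S : Finset E} (hi : i ∉ S) :
    cnt (blk i) (tog i S) = cnt (blk i) S + 1 ∧ ∀ b, b ≠ blk i → cnt b (tog i S) = cnt b S := by
  obtain ⟨-, -, h, -⟩ := h1
  exact ⟨(h _ i S).2.2 rfl hi, fun b hb => (h b i S).1 hb.symm⟩

/-- the maximal count -/
theorem low_spec (S : Finset E) : ∃ M a, low S = min 3 (M - 2) ∧ cnt a S = M ∧
    ∀ b, cnt b S ≤ M := by
  refine ⟨max (cnt 0 S) (max (cnt 1 S) (cnt 2 S)), ?_⟩
  have hb : ∀ b, cnt b S ≤ max (cnt 0 S) (max (cnt 1 S) (cnt 2 S)) := by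
    rw [all3]
    exact ⟨le_max_left _ _, (le_max_left _ _).trans (le_max_right _ _),
      (le_max_right _ _).trans (le_max_right _ _)⟩
  rcases max_choice (cnt 0 S) (max (cnt 1 S) (cnt 2 S)) with h | h
  · exact ⟨0, rfl, h.symm, hb⟩
  · rcases max_choice (cnt 1 S) (cnt 2 S) with h' | h'
    · exact ⟨1, rfl, by rw [h, h'], hb⟩
    · exact ⟨2, rfl, by rw [h, h'], hb⟩

/-- the toggle changes `low` by at most one, and if it does, all counts are small -/
theorem low_ch (h1 : S_XC1) {i : E} {S : Finset E} (hi : i ∉ S) :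
    low (tog i S) = low S ∨ (low (tog i S) = low S + 1 ∧ (∀ a, cnt a S ≤ 5) ∧
      (∀ a, cnt a (tog i S) ≤ 5) ∧ ∀ a, cnt a S ≤ cnt (blk i) S) := by
  obtain ⟨e1, e2⟩ := edge h1 hi
  obtain ⟨M, a, hM, ha, hb⟩ := low_spec S
  obtain ⟨M', a', hM', ha', hb'⟩ := low_spec (tog i S)
  have hle : M ≤ M' := by
    have := hb' a
    by_cases h : a = blk i
    · rw [h] at this ha
      omega
    · rw [e2 a h] at this
      omega
  by_cases h : a' = blk i
  · subst h
    have h5 := hb (blk i)
    rcases Nat.lt_or_ge M M' with h6 | h6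
    · have h7 : M' = M + 1 := by omega
      have h8 : cnt (blk i) S = M := by omega
      rcases Nat.lt_or_ge 4 M with h9 | h9
      · left
        rw [hM, hM']
        omega
      · rcases Nat.lt_or_ge M 2 with h10 | h10
        · left
          rw [hM, hM']
          omega
        · right
          refine ⟨by rw [hM, hM']; omega, fun b => ?_, fun b => ?_, fun b => ?_⟩
          · have := hb b
            omega
          · have := hb' b
            omega
          · have := hb b
            omega
    · left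
      rw [hM, hM', show M' = M by omega]
  · left
    have h5 := hb a'
    rw [e2 a' h] at ha'
    rw [hM, hM', show M' = M by omega]

/-- the case where the toggle changes `low` -/
theorem low_case (h1 : S_XC1) {i : E} {S : Finset E} (hi : i ∉ S)
    (hS : ∃ a, 3 ≤ cnt a S) (hl : low S ≠ low (tog i S)) :
    (∀ a, cnt a S ≤ 5) ∧ (∀ a, cnt a (tog i S) ≤ 5) ∧ cl S = cl (tog i S) := by
  obtain ⟨e1, e2⟩ := edge h1 hi
  rcases low_ch h1 hi with h | ⟨-, k1, k2, k3⟩
  · exact absurd h.symm hl
  obtain ⟨a, ha⟩ := hS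
  have k4 : 3 ≤ cnt (blk i) S := ha.trans (k3 a)
  refine ⟨k1, k2, ?_⟩
  funext b
  unfold cl
  by_cases hb : b = blk i
  · subst hb
    rw [if_pos k4, if_pos (by rw [e1]; omega)]
  · rw [e2 b hb, filter_tog (fun h => hb h.symm)]

theorem low_three {S : Finset E} {a : Fin 3} (h : 5 ≤ cnt a S) : low S = 3 := by
  obtain ⟨M, b, hM, -, hb⟩ := low_spec S
  have := hb a
  rw [hM]
  omega

theorem low_pos {S : Finset E} : 0 < low S ↔ ∃ a, 3 ≤ cnt a S := by
  obtain ⟨M, a, hM, ha, hb⟩ := low_spec S
  rw [hM]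
  constructor
  · intro h
    exact ⟨a, by omega⟩
  · rintro ⟨b, h⟩
    have := hb b
    omega

theorem low_le (S : Finset E) : low S ≤ 3 := by
  obtain ⟨M, a, hM, -, -⟩ := low_spec S
  rw [hM]
  omega

/-- Packet XC2. -/
theorem xc2 : S_XC1 → S_XC2 := by
  intro h1
  have hc : ∀ a S, cnt a S ≤ 20 ∧ cnt a Sᶜ = 20 - cnt a S := h1.1
  have htc : ∀ (i : E) (S : Finset E), (tog i S)ᶜ = tog i Sᶜ := h1.2.2.2.2.2.1
  have hNP : ∀ S, NP S ↔ (∃ a, 3 ≤ cnt a S) ∧ ∃ a, 3 ≤ cnt a Sᶜ := by
    intro S
    rw [← low_pos, ← low_pos]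
    have l1 := low_le S
    have l2 := low_le Sᶜ
    have l3 : low S = 0 → low Sᶜ = 3 := by
      intro h
      have h' : ¬ ∃ a, 3 ≤ cnt a S := by
        rw [← low_pos]
        omega
      push Not at h'
      have := h' 0
      have := hc 0 S
      exact low_three (a := 0) (by omega)
    have l4 : low Sᶜ = 0 → low S = 3 := by
      intro h
      have h' : ¬ ∃ a, 3 ≤ cnt a Sᶜ := by
        rw [← low_pos]
        omega
      push Not at h'
      have := h' 0
      have := hc 0 S
      exact low_three (a := 0) (by omega)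
    unfold NP hgt
    constructor
    · rintro ⟨h5, h6⟩
      constructor
      · by_contra h7
        have := l3 (by omega)
        omega
      · by_contra h7
        have := l4 (by omega)
        omega
    · rintro ⟨h5, h6⟩
      omega
  have hadj : ∀ S T : Finset E, (cube E).Adj S T → (∃ i, i ∉ S ∧ T = tog i S) ∨
      ∃ i, i ∉ T ∧ S = tog i T := by
    rintro S T ⟨i, rfl⟩
    by_cases hi : i ∈ S
    · refine Or.inr ⟨i, ?_, (tog_tog i S).symm⟩
      rw [mem_tog]
      rintro (h | h)
      · exact h.2 rfl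
      · exact h.2 hi
    · exact Or.inl ⟨i, hi, rfl⟩
  have h3 : ∀ (i : E) (S : Finset E), i ∉ S → NP S → NP (tog i S) → hgt S ≠ hgt (tog i S) →
      xc S = xc (tog i S) := by
    intro i S hi hS hT hne
    rw [hNP] at hS hT
    by_cases hl : low S = low (tog i S)
    · have hl' : low (tog i S)ᶜ ≠ low (tog i (tog i S)ᶜ) := by
        rw [← htc, tog_tog]
        intro h
        apply hne
        unfold hgt
        rw [hl, h]
      have hi' : i ∉ (tog i S)ᶜ := by
        rw [Finset.mem_compl, not_not, mem_tog]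
        exact Or.inr ⟨rfl, hi⟩
      obtain ⟨k1, k2, k3⟩ := low_case h1 hi' hT.2 hl'
      rw [← htc, tog_tog] at k2 k3
      have q1 : ¬ ∀ a, cnt a S ≤ 5 := by
        intro h
        have := h 0
        have := k2 0
        have := hc 0 S
        omega
      have q2 : ¬ ∀ a, cnt a (tog i S) ≤ 5 := by
        intro h
        have := h 0
        have := k1 0
        have := hc 0 (tog i S)
        omega
      unfold xc
      rw [if_neg q1, if_neg q2, if_pos k2, if_pos k1, k3]
    · obtain ⟨k1, k2, k3⟩ := low_case h1 hi hS.1 hl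
      unfold xc
      rw [if_pos k1, if_pos k2, k3]
  have h4 : ∀ (i : E) (S : Finset E), i ∉ S → hgt S ≤ hgt (tog i S) + 1 ∧
      hgt (tog i S) ≤ hgt S + 1 := by
    intro i S hi
    have hi' : i ∉ (tog i S)ᶜ := by
      rw [Finset.mem_compl, not_not, mem_tog]
      exact Or.inr ⟨rfl, hi⟩
    have l1 := low_le S
    have l2 := low_le Sᶜ
    have l3 := low_le (tog i S)
    have l4 := low_le (tog i S)ᶜ
    have c := low_ch h1 hi'
    rw [← htc, tog_tog] at c
    unfold hgt
    rcases low_ch h1 hi with h | ⟨h, k1, k2, -⟩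
    · rcases c with h' | ⟨h', -, -, -⟩ <;> omega
    · have := k1 0
      have := k2 0
      have := hc 0 S
      have := hc 0 (tog i S)
      have m1 : low Sᶜ = 3 := low_three (a := 0) (by omega)
      have m2 : low (tog i S)ᶜ = 3 := low_three (a := 0) (by omega)
      omega
  refine ⟨hNP, ?_, ?_, ?_, ?_, ?_, ?_⟩
  · intro S T
    unfold xc
    by_cases q1 : ∀ a, cnt a S ≤ 5
    · rw [if_pos q1]
      constructor
      · intro h
        cases h
      · rintro ⟨-, ⟨a, ha⟩, -⟩
        exact absurd (q1 a) (by omega)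
    · rw [if_neg q1]
      by_cases q2 : ∀ a, cnt a Sᶜ ≤ 5
      · rw [if_pos q2]
        constructor
        · intro h
          cases h
        · rintro ⟨-, -, ⟨a, ha⟩⟩
          exact absurd (q2 a) (by omega)
      · rw [if_neg q2]
        push Not at q1 q2
        constructor
        · intro h
          cases h
          exact ⟨rfl, q1, q2⟩
        · rintro ⟨rfl, -, -⟩
          rfl
  · intro S T hST hS hT hne
    rcases hadj S T hST with ⟨i, hi, rfl⟩ | ⟨i, hi, rfl⟩
    · exact h3 i S hi hS hT hne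
    · exact (h3 i T hi hT hS hne.symm).symm
  · intro S T hST
    rcases hadj S T hST with ⟨i, hi, rfl⟩ | ⟨i, hi, rfl⟩
    · exact (h4 i S hi).1
    · exact (h4 i T hi).2
  · intro S T _ _ h a
    have hcl : ∀ S T : Finset E, cl S = cl T → min 3 (cnt a S) = min 3 (cnt a T) := by
      intro S T h
      have h' := congrFun h a
      unfold cl at h'
      by_cases p : 3 ≤ cnt a S
      · rw [if_pos p] at h'
        by_cases q : 3 ≤ cnt a T
        · omega
        · rw [if_neg q] at h'
          cases h'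
      · rw [if_neg p] at h'
        by_cases q : 3 ≤ cnt a T
        · rw [if_pos q] at h'
          cases h'
        · rw [if_neg q] at h'
          have h2 := Option.some.inj h'
          unfold cnt
          rw [h2]
    have c := hc a S
    have d := hc a T
    unfold xc at h
    by_cases q1 : ∀ a, cnt a S ≤ 5
    · rw [if_pos q1] at h
      by_cases r1 : ∀ a, cnt a T ≤ 5
      · rw [if_pos r1] at h
        have := q1 a
        have := r1 a
        exact ⟨hcl S T (C0.lo.inj h), by omega⟩
      · rw [if_neg r1] at h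
        by_cases r2 : ∀ a, cnt a Tᶜ ≤ 5
        · rw [if_pos r2] at h
          cases h
        · rw [if_neg r2] at h
          cases h
    · rw [if_neg q1] at h
      by_cases q2 : ∀ a, cnt a Sᶜ ≤ 5
      · rw [if_pos q2] at h
        by_cases r1 : ∀ a, cnt a T ≤ 5
        · rw [if_pos r1] at h
          cases h
        · rw [if_neg r1] at h
          by_cases r2 : ∀ a, cnt a Tᶜ ≤ 5
          · rw [if_pos r2] at h
            have := q2 a
            have := r2 a
            exact ⟨by omega, hcl Sᶜ Tᶜ (C0.hi.inj h)⟩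
          · rw [if_neg r2] at h
            cases h
      · rw [if_neg q2] at h
        by_cases r1 : ∀ a, cnt a T ≤ 5
        · rw [if_pos r1] at h
          cases h
        · rw [if_neg r1] at h
          by_cases r2 : ∀ a, cnt a Tᶜ ≤ 5
          · rw [if_pos r2] at h
            cases h
          · rw [if_neg r2] at h
            have := C0.mid.inj h
            subst this
            exact ⟨rfl, rfl⟩
  · intro S
    have := low_le S
    unfold hgt
    omega
  · rintro S ⟨a, ha⟩ ⟨b, hb⟩
    unfold hgt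
    rw [low_three ha, low_three hb]

end Pool.Agent.Helper71.SD.XC2
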